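import Pool.Agent.Work.MP_0170c4_co.Link

/-!
# Form (ii) for connected quivers with a triple arrow, or with a double arrow in general position

Problem MP_0170c4_co, Q2.

Let `Q` be a connected quiver that admits no reddening sequence. If `Q` has at least three arrows
`v → w`, or exactly two arrows `v → w` and a further vertex `k` such that `v, w, k` do not form a
cyclic triangle `v ⇉ w → k → v` with as many arrows `w → k` as `k → v` (a vertex `k` adjacent to
neither `v` nor `w` does not count), then form (ii) holds for `Q`: `Red(Q) = |V| - 1`, and every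
vertex is the last remaining green vertex after some general maximal green sequence.
-/

set_option autoImplicit false

namespace Pool.Agent.Results.MP_0170c4_co.FormTwoNonTame

open Pool.Agent.Work.MP_0170c4_co

/-- **Form (ii) for connected quivers with an arrow of multiplicity at least three, or a double arrow
`v ⇉ w` and a vertex `k` which is not in an equal-weight cyclic triangle with it.** -/
theorem result (V : Type) [Fintype V] [DecidableEq V] (Q : Qvr V) (hconn : Q.graph.Connected)
    (hno : ¬ HasReddening Q)
    (hw : ∃ v w, 3 ≤ Q.arr v w ∨ (Q.arr v w = 2 ∧ ∃ k, k ≠ v ∧ k ≠ w ∧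
      ¬ (Q.arr k w = 0 ∧ Q.arr v k = 0 ∧ Q.arr k v = Q.arr w k))) :
    FormTwo Q := by
  have key := exists_greenSeq Q hconn hw
  have hcard : ∀ (S : Ice V) (u : V), (∀ i, IsRed S i ↔ i ≠ u) → numRed S = Fintype.card V - 1 := by
    intro S u h
    have e : {i | IsRed S i} = ((Finset.univ.erase u : Finset V) : Set V) := by
      ext i
      simp [h i]
    unfold numRed
    rw [e, Set.ncard_coe_finset, Finset.card_erase_of_mem (Finset.mem_univ u), Finset.card_univ]
  have hle : ∀ s : List V, numRed (run (framed Q) s) ≤ Fintype.card V - 1 := by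
    intro s
    by_contra hlt
    push Not at hlt
    apply hno
    refine ⟨s, ?_⟩
    by_contra hnot
    push Not at hnot
    obtain ⟨i, hi⟩ := hnot
    have hsub : {j | IsRed (run (framed Q) s) j} ⊆ ((Finset.univ.erase i : Finset V) : Set V) := by
      intro j hj
      have hji : j ≠ i := by
        rintro rfl
        exact hi hj
      simp [hji]
    have := Set.ncard_le_ncard hsub (Finset.finite_toSet _)
    rw [Set.ncard_coe_finset, Finset.card_erase_of_mem (Finset.mem_univ i), Finset.card_univ] at this
    unfold numRed at hlt
    omega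
  obtain ⟨v0, _⟩ := hw
  have hred : redSize Q = Fintype.card V - 1 := by
    obtain ⟨s, hs, _, hr⟩ := key v0
    have hmem : Fintype.card V - 1 ∈
        {r | ∃ s : List V, GreenSeq (framed Q) s ∧ numRed (run (framed Q) s) = r} :=
      ⟨s, hs, hcard _ v0 hr⟩
    have hbdd : ∀ r ∈ {r | ∃ s : List V, GreenSeq (framed Q) s ∧ numRed (run (framed Q) s) = r},
        r ≤ Fintype.card V - 1 := by
      rintro r ⟨s, _, rfl⟩
      exact hle s
    exact le_antisymm (csSup_le ⟨_, hmem⟩ hbdd) (le_csSup ⟨_, hbdd⟩ hmem)
  refine ⟨hred, fun v => ?_⟩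
  obtain ⟨s, hs, hg, hr⟩ := key v
  exact ⟨s, hs, by rw [hred]; exact hcard _ v hr, hg⟩

end Pool.Agent.Results.MP_0170c4_co.FormTwoNonTame
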